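import Pool.Agent.Mg.F5045a8a.G665596

/-! Every Borel conjugacy invariant of maximal Haagerup subgroups of SL(3,Z) takes one value on
continuum many pairwise non-conjugate ones that are free, Zariski dense, maximal subgroups. -/

namespace Pool.Agent.Results.MP_5045a8_al.FreeThin

open Pool.Agent.MP_5045a8_al

theorem result (f : Set G3 → ℝ) (hf : Measurable f)
    (hinv : ∀ H K : Subgroup G3, IsMaxHaagerup H → (∃ γ : G3, ∀ g, g ∈ K ↔ γ * g * γ⁻¹ ∈ H) →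
      f H = f K) :
    ∃ S : Set (Subgroup G3), Cardinal.mk S = Cardinal.continuum ∧
    (∀ H ∈ S, IsMaxHaagerup H ∧ IsFreeGroup H ∧ IsCoatom H ∧ H.index = 0 ∧
      (∀ N : ℕ, 0 < N → ∀ g : G3, ∃ h ∈ H, ∀ i j, (N : ℤ) ∣ h i j - g i j) ∧
      ∀ P : MvPolynomial (Fin 3 × Fin 3) ℝ,
        (∀ h ∈ H, MvPolynomial.eval (fun ij => ((h ij.1 ij.2 : ℤ) : ℝ)) P = 0) →
        ∀ M : Matrix (Fin 3) (Fin 3) ℝ, M.det = 1 →
          MvPolynomial.eval (fun ij => M ij.1 ij.2) P = 0) ∧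
    (∀ H ∈ S, ∀ K ∈ S, H ≠ K → ¬ ∃ γ : G3, ∀ g, g ∈ K ↔ γ * g * γ⁻¹ ∈ H) ∧
    ∀ H ∈ S, ∀ K ∈ S, f H = f K := by
  obtain ⟨M, a, hM, h⟩ := FT.free_family₂ f hf hinv
  obtain ⟨S, h1, h2, h3⟩ := continuum_classes (P := fun H : Subgroup G3 => f H = a ∧
    IsMaxHaagerup H ∧ IsFreeGroup H ∧ IsCoatom H ∧ H.index = 0) M hM h
  refine ⟨S, h1, fun H hH => ?_, h3, fun H hH K hK => (h2 H hH).1.trans (h2 K hK).1.symm⟩
  obtain ⟨-, a1, a2, a3, a4⟩ := h2 H hH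
  exact ⟨a1, a2, a3, a4, FT.congr_dense a3 a4,
    fun P hP A hA => FT.zariski_dense (FT.congr_dense a3 a4) P hP A hA⟩

end Pool.Agent.Results.MP_5045a8_al.FreeThin
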