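import Pool.Agent.Mg.F5045a8a.Gd64736

/-! The maximal Haagerup subgroups of SL(3,Z) that are not Zariski dense, outside three explicit
exceptional families. -/

namespace Pool.Agent.Results.MP_5045a8_al.NonDense

open Pool.Agent.MP_5045a8_al

theorem result (H : Subgroup G3) (hx : ¬ IsExceptional H) :
    (IsMaxHaagerup H ∧ ¬ ZDense H) ↔
      IsBlockType H ∨ (∃ f, IsMaxLift f H ∨ IsMaxLift f (Transp H)) ∨
        ∃ B, Indef B ∧ H = SOq B := by
  rw [isMax_iff]
  exact HX.nonDense_iff hx

end Pool.Agent.Results.MP_5045a8_al.NonDense
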