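import Pool.Agent.Mg.F5045a8a.Gd64736

/-! Maximal Haagerup subgroups of SL(3,Z) that meet an indefinite integral orthogonal group in a
subgroup of finite index. -/

namespace Pool.Agent.Results.MP_5045a8_al.Orthogonal2

open Pool.Agent.MP_5045a8_al Matrix

theorem result (B : Matrix (Fin 3) (Fin 3) ℤ) (hB : Indef B) (H : Subgroup G3)
    (hi : H.relIndex (SOq B) ≠ 0)
    (hs : (∃ p : Fin 3 → ℤ, p ≠ 0 ∧ p ⬝ᵥ B *ᵥ p = 0) ∨ ∃ s ∈ H, s ≠ 1 ∧
      (s ^ 2 = 1 ∨ ((s : Matrix (Fin 3) (Fin 3) ℤ) - 1) ^ 3 = 0)) :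
    IsMaxHaagerup H ↔ H = SOq B := by
  have key : ∀ K : Subgroup G3, H ≤ K → HP K → K.relIndex (SOq B) ≠ 0 → K ≤ SOq B := by
    intro K hle hK hr
    rcases hs with hs | ⟨s, hs, h1, h2 | h2⟩
    · exact HX.thO B K ⟨hB.1, hB.2.1, hs⟩ hK hr
    · exact O.le_SOq hB hK hr (hle hs) h1 h2
    · exact HX.thUni B K s hB hK hr (hle hs) h1 h2
  rw [isMax_iff]
  constructor
  · exact fun h => HX.eq_of_le h (key H le_rfl h.1 hi) (O.hp_SOq hB)
  · rintro rfl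
    refine ⟨O.hp_SOq hB, fun K hK hH => hK.not_ge (key K hK.le hH ?_)⟩
    rw [Subgroup.relIndex_eq_one.2 hK.le]
    exact one_ne_zero

end Pool.Agent.Results.MP_5045a8_al.Orthogonal2
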