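import Pool.Agent.MP_5045a8_al.UN.Lab

/-! Conjugacy of maximal Haagerup subgroups of SL(3,Z) is a universal countable Borel
equivalence relation. -/

namespace Pool.Agent.Results.MP_5045a8_al.Universal

open Pool.Agent.MP_5045a8_al

theorem result :
    MeasurableSet {A : Set G3 | ∃ H : Subgroup G3, IsMaxHaagerup H ∧ (H : Set G3) = A} ∧
    ∀ (X : Type) [MeasurableSpace X] [StandardBorelSpace X] (E : X → X → Prop), Equivalence E →
      MeasurableSet {p : X × X | E p.1 p.2} → (∀ x, {y | E x y}.Countable) →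
      ∃ H : X → Subgroup G3, Measurable (fun x => (H x : Set G3)) ∧ Function.Injective H ∧
        (∀ x, IsMaxHaagerup (H x) ∧ IsFreeGroup (H x) ∧ IsMaxLift ![0, 0, 1] (H x)) ∧
        ∀ x y, E x y ↔ ∃ γ : G3, ∀ g, g ∈ H y ↔ γ * g * γ⁻¹ ∈ H x := by
  simp only [isMax_iff]
  exact ⟨UN.meas_max, UN.universal⟩

end Pool.Agent.Results.MP_5045a8_al.Universal
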